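import Mathlib

set_option autoImplicit false

namespace Pool.Agent.Results.MP_2ddb17_co.FlatNotFree

open Finsupp

/-- A countable, locally finite, undirected multigraph with interior and boundary vertices. -/
structure BGraph (V E : Type) where
  countable : Countable V
  src : E → V
  tgt : E → V
  rev : E → E
  rev_rev : ∀ e, rev (rev e) = e
  rev_ne : ∀ e, rev e ≠ e
  src_rev : ∀ e, src (rev e) = tgt e
  locFin : ∀ x, {e | src e = x}.Finite
  interior : Set V

/-- An `Rˣ`-network on `G`. -/
structure Network {V E : Type} (G : BGraph V E) (R : Type) [CommRing R] where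
  w : E → R
  d : V → R
  w_rev : ∀ e, w (G.rev e) = w e
  w_unit : ∀ e, IsUnit (w e)

/-- `L x = d(x) x + ∑_{e ∈ 𝓔(x)} w(e) (x - e₋)` -/
noncomputable def lap {V E : Type} {G : BGraph V E} {R : Type} [CommRing R] (N : Network G R) (x : V) :
    V →₀ R :=
  N.d x • single x 1 + ∑ e ∈ (G.locFin x).toFinset, N.w e • (single x 1 - single (G.tgt e) 1)

/-- `L(R V°)` -/
noncomputable def rel {V E : Type} {G : BGraph V E} {R : Type} [CommRing R] (N : Network G R) :
    Submodule R (V →₀ R) := Submodule.span R (lap N '' G.interior)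

/-- the fundamental module `R V / L(R V°)` -/
abbrev Ups {V E : Type} {G : BGraph V E} {R : Type} [CommRing R] (N : Network G R) : Type :=
  (V →₀ R) ⧸ rel N

/-- Boundary vertices `(false, i)`, interior vertices `(true, i)`; the interior vertex `i` has one
edge to the boundary vertex `i` and two parallel edges to the boundary vertex `i + 1`. -/
def G : BGraph (Bool × ℕ) (ℕ × Fin 3 × Bool) where
  countable := inferInstance
  src e := if e.2.2 then (true, e.1) else (false, if e.2.1 = 0 then e.1 else e.1 + 1)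
  tgt e := if e.2.2 then (false, if e.2.1 = 0 then e.1 else e.1 + 1) else (true, e.1)
  rev e := (e.1, e.2.1, !e.2.2)
  rev_rev e := by simp
  rev_ne e h := by simpa using congrArg (fun e => e.2.2) h
  src_rev e := by rcases e with ⟨i, j, _ | _⟩ <;> simp
  locFin x := ((Set.finite_Iic x.2).prod Set.finite_univ).subset (by
    rintro ⟨i, j, _ | _⟩ rfl
    · simp only [Set.mem_prod, Set.mem_Iic, Set.mem_univ, and_true, Bool.false_eq_true, if_false]
      split_ifs <;> omega
    · simp)
  interior := {v | v.1 = true}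

variable {R : Type} [CommRing R]

theorem lap_eq (N : Network G R) (i : ℕ) : lap N (true, i) =
    (N.d (true, i) + N.w (i, 0, true) + N.w (i, 1, true) + N.w (i, 2, true)) •
      (single (true, i) 1 : Bool × ℕ →₀ R) - N.w (i, 0, true) • single (false, i) 1 -
      (N.w (i, 1, true) + N.w (i, 2, true)) • single (false, i + 1) 1 := by
  have : (G.locFin (true, i)).toFinset = ({(i, 0, true), (i, 1, true), (i, 2, true)} :
      Finset (ℕ × Fin 3 × Bool)) := by
    ext ⟨k, j, _ | _⟩
    · simp [G]
    · fin_cases j <;> simp [G]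
  unfold lap
  rw [this, Finset.sum_insert (by simp), Finset.sum_insert (by simp), Finset.sum_singleton]
  change _ + (_ • (_ - single (false, i) 1) + (_ • (_ - single (false, i + 1) 1) +
    _ • (_ - single (false, i + 1) 1))) = _
  module

theorem flat (N : Network G R) : Module.Flat R (Ups N) := by
  choose u hu using fun i => (N.w_unit (i, 0, true)).exists_left_inv
  let s : ℕ → (Bool × ℕ →₀ R) →ₗ[R] (Bool × ℕ →₀ R) := fun i =>
    LinearMap.id + (Finsupp.lapply (false, i)).smulRight (u i • lap N (true, i))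
  have s1 : ∀ i x, (rel N).mkQ (s i x) = (rel N).mkQ x := fun i x => by
    have : (rel N).mkQ (lap N (true, i)) = 0 :=
      (Submodule.Quotient.mk_eq_zero _).2 (Submodule.subset_span ⟨_, rfl, rfl⟩)
    simp only [s, LinearMap.add_apply, LinearMap.id_apply, LinearMap.smulRight_apply, map_add,
      map_smul, this, smul_zero, add_zero]
  have s2 : ∀ i, s i (lap N (true, i)) = 0 := fun i => by
    have : lap N (true, i) (false, i) = -N.w (i, 0, true) := by simp [lap_eq]
    simp only [s, LinearMap.add_apply, LinearMap.id_apply, LinearMap.smulRight_apply,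
      Finsupp.lapply_apply, this, smul_smul, mul_comm _ (u i), mul_neg, hu, neg_smul, one_smul,
      add_neg_cancel]
  have s3 : ∀ i j, i < j → s i (lap N (true, j)) = lap N (true, j) := fun i j h => by
    have : lap N (true, j) (false, i) = 0 := by
      have e : ¬ j + 1 = i := by omega
      simp [lap_eq, single_apply, h.ne', e]
    simp only [s, LinearMap.add_apply, LinearMap.id_apply, LinearMap.smulRight_apply,
      Finsupp.lapply_apply, this, zero_smul, add_zero]
  let ρ : ℕ → (Bool × ℕ →₀ R) →ₗ[R] (Bool × ℕ →₀ R) := fun n =>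
    Nat.rec LinearMap.id (fun i r => s i ∘ₗ r) n
  have r1 : ∀ n x, (rel N).mkQ (ρ n x) = (rel N).mkQ x := fun n x => by
    induction n with
    | zero => rfl
    | succ n ih => exact (s1 n _).trans ih
  have r2 : ∀ n j, n ≤ j → ρ n (lap N (true, j)) = lap N (true, j) := fun n j h => by
    induction n with
    | zero => rfl
    | succ n ih =>
      change s n (ρ n _) = _
      rw [ih (by omega), s3 n j h]
  have r3 : ∀ x n m, ρ n x = 0 → ρ (n + m) x = 0 := fun x n m h => by
    induction m with
    | zero => exact h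
    | succ m ih =>
      change s (n + m) (ρ (n + m) _) = _
      rw [ih, map_zero]
  have r4 : ∀ x ∈ rel N, ∃ n, ρ n x = 0 := fun x hx => by
    induction hx using Submodule.span_induction with
    | mem x hx =>
      obtain ⟨⟨b, j⟩, rfl, rfl⟩ := hx
      refine ⟨j + 1, ?_⟩
      change s j (ρ j _) = _
      rw [r2 j j le_rfl, s2]
    | zero => exact ⟨0, rfl⟩
    | add x y _ _ hx hy =>
      obtain ⟨n, hn⟩ := hx
      obtain ⟨m, hm⟩ := hy
      exact ⟨n + m, by rw [map_add, r3 x n m hn, add_comm n, r3 y m n hm, add_zero]⟩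
    | smul a x _ hx =>
      obtain ⟨n, hn⟩ := hx
      exact ⟨n, by rw [map_smul, hn, smul_zero]⟩
  refine Module.Flat.of_forall_isTrivialRelation fun {l f x} h => ?_
  choose y hy using fun i => (rel N).mkQ_surjective (x i)
  obtain ⟨n, hn⟩ := r4 (∑ i, f i • y i) (by
    rw [← Submodule.Quotient.mk_eq_zero, ← Submodule.mkQ_apply, map_sum]
    simpa only [map_smul, hy] using h)
  rw [map_sum] at hn
  simp only [map_smul] at hn
  obtain ⟨k, a, z, h1, h2⟩ := Module.Flat.isTrivialRelation_of_sum_smul_eq_zero hn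
  refine ⟨k, a, fun j => (rel N).mkQ (z j), fun i => ?_, h2⟩
  rw [← hy, ← r1 n, show ρ n (y i) = _ from h1 i, map_sum]
  simp only [map_smul]

def N0 : Network G ℤ where
  w _ := 1
  d _ := -3
  w_rev _ := rfl
  w_unit _ := isUnit_one

theorem not_free : ¬ Module.Free ℤ (Ups N0) := by
  intro h
  let x : ℕ → Ups N0 := fun i => (rel N0).mkQ (single (false, i) 1)
  have h1 : ∀ i, x i = (-2 : ℤ) • x (i + 1) := fun i => by
    have : (rel N0).mkQ (lap N0 (true, i)) = 0 :=
      (Submodule.Quotient.mk_eq_zero _).2 (Submodule.subset_span ⟨_, rfl, rfl⟩)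
    rw [lap_eq, map_sub, map_sub, map_smul, map_smul, map_smul] at this
    change (-3 + 1 + 1 + 1 : ℤ) • _ - (1 : ℤ) • x i - (1 + 1 : ℤ) • x (i + 1) = 0 at this
    linear_combination (norm := module) -this
  have h2 : ∀ i, x 0 = (-2 : ℤ) ^ i • x i := fun i => by
    induction i with
    | zero => simp
    | succ i ih => rw [ih, h1 i, smul_smul, pow_succ]
  have h3 : x 0 = 0 := by
    refine (Module.Free.chooseBasis ℤ (Ups N0)).forall_coord_eq_zero_iff.1 fun j => ?_
    generalize (Module.Free.chooseBasis ℤ (Ups N0)).coord j = c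
    refine Int.eq_zero_of_abs_lt_dvd (m := 2 ^ (c (x 0)).natAbs) ?_ ?_
    · rw [← neg_dvd, ← Int.natAbs_dvd_natAbs]
      have := congrArg (fun t => (c t).natAbs) (h2 (c (x 0)).natAbs)
      simp only [map_smul, smul_eq_mul, Int.natAbs_mul, Int.natAbs_pow] at this
      exact ⟨_, by simpa using this⟩
    · rw [Int.abs_eq_natAbs]
      exact_mod_cast Nat.lt_two_pow_self
  let φ : (Bool × ℕ →₀ ℤ) →ₗ[ℤ] ℚ :=
    Finsupp.linearCombination ℤ fun v => if v.1 then 0 else (-1 / 2) ^ v.2
  have h4 : rel N0 ≤ LinearMap.ker φ := by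
    refine Submodule.span_le.2 ?_
    rintro _ ⟨⟨b, j⟩, rfl, rfl⟩
    change φ _ = 0
    rw [lap_eq]
    simp [φ, N0, pow_succ]
    ring
  have := h4 ((Submodule.Quotient.mk_eq_zero _).1 h3)
  simp [φ] at this

theorem result : ∃ (V E : Type) (G : BGraph V E), Infinite V ∧
    (∀ (R : Type) [CommRing R] (N : Network G R), Module.Flat R (Ups N)) ∧
    ∃ N : Network G ℤ, ¬ Module.Free ℤ (Ups N) :=
  ⟨_, _, G, inferInstance, fun _ _ N => flat N, N0, not_free⟩

end Pool.Agent.Results.MP_2ddb17_co.FlatNotFree
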